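import Pool.Agent.Helper41.PS.Goals

/-!
Project PS (MP_74f661_nt), packet GU (helper90).
-/

set_option autoImplicit false

open Finset

open scoped Classical

namespace Pool.Agent.Helper90.PS.GU

open Pool.Agent.Helper41.PS

theorem ff_cases (q a : ℕ) (D : Finset ℕ) (n : ℕ) :
    (PD q a D n ∧ ff q a D n = 1) ∨ (¬ PD q a D n ∧ ff q a D n = 0) := by
  unfold ff
  by_cases h : PD q a D n
  · exact Or.inl ⟨h, if_pos h⟩
  · exact Or.inr ⟨h, if_neg h⟩

theorem ff_nonneg (q a : ℕ) (D : Finset ℕ) (n : ℕ) : 0 ≤ ff q a D n := by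
  rcases ff_cases q a D n with ⟨-, h⟩ | ⟨-, h⟩ <;> rw [h]
  exact zero_le_one

theorem SS_nonneg (m q x L a h : ℕ) : 0 ≤ SS m q x L a h :=
  sum_nonneg fun _ _ => sum_nonneg fun _ _ => mul_nonneg (ff_nonneg _ _ _ _) (ff_nonneg _ _ _ _)

theorem NN_nonneg (x : ℕ) (E : Finset ℕ) : 0 ≤ NN x E := Nat.cast_nonneg _

theorem UU_nonneg (m x L h : ℕ) : 0 ≤ UU m x L h := sum_nonneg fun _ _ => NN_nonneg _ _

theorem MM_nonneg (m q x L a : ℕ) : 0 ≤ MM m q x L a :=
  sum_nonneg fun _ _ => sum_nonneg fun _ _ => ff_nonneg _ _ _ _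

theorem nd {m L h : ℕ} (hL : L < h) {D : Finset ℕ} (hD : D ∈ DD m L) : ND D h := by
  have hs := (mem_powersetCard.mp hD).1
  unfold ND
  rw [Finset.disjoint_left]
  intro e he hf
  obtain ⟨d, -, hd⟩ := mem_image.mp hf
  rcases mem_insert.mp he with he | he
  · omega
  · have := (mem_Icc.mp (hs he)).2
    omega

theorem le_NN (q a x h : ℕ) (D : Finset ℕ) :
    ∑ n ∈ Icc 1 x, ff q a D n * ff q a D (n + h) ≤ NN x (EE D h) := by
  unfold NN
  rw [card_filter]
  push_cast
  refine sum_le_sum fun n _ => ?_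
  by_cases hP : PD q a D n ∧ PD q a D (n + h)
  · rw [if_pos]
    · unfold ff
      rw [if_pos hP.1, if_pos hP.2, mul_one]
    · intro e he
      unfold EE at he
      rcases mem_union.mp he with he | he
      · exact (hP.1 e he).1
      · obtain ⟨d, hd, rfl⟩ := mem_image.mp he
        have := (hP.2 d hd).1
        rwa [add_assoc, add_comm h d] at this
  · have h0 : ff q a D n * ff q a D (n + h) = 0 := by
      rcases ff_cases q a D n with ⟨h1, -⟩ | ⟨-, h1⟩
      · rcases ff_cases q a D (n + h) with ⟨h2, -⟩ | ⟨-, h2⟩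
        · exact absurd ⟨h1, h2⟩ hP
        · rw [h2, mul_zero]
      · rw [h1, zero_mul]
    rw [h0]
    split_ifs <;> simp

theorem SS_le (m q x L a h : ℕ) (hL : L < h) : SS m q x L a h ≤ UU m x L h := by
  unfold SS UU
  rw [filter_true_of_mem fun D hD => nd hL hD]
  exact sum_le_sum fun D _ => le_NN q a x h D

theorem UU_zero (x L h : ℕ) (hh : 1 ≤ h) :
    UU 0 x L h = (((Icc 1 x).filter (fun p => T h p)).card : ℝ) := by
  have h1 : (DD 0 L).filter (fun D => ND D h) = {∅} := by
    unfold DD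
    rw [powersetCard_zero]
    refine filter_true_of_mem fun D hD => ?_
    rw [mem_singleton] at hD
    subst hD
    unfold ND
    rw [Finset.disjoint_left]
    intro e he hf
    obtain ⟨d, -, hd⟩ := mem_image.mp hf
    rcases mem_insert.mp he with he | he
    · omega
    · simp at he
  unfold UU
  rw [h1, sum_singleton]
  unfold NN
  congr 2
  refine filter_congr fun n _ => ?_
  unfold EE T
  constructor
  · intro hp
    refine ⟨?_, ?_⟩
    · have := hp 0 (mem_union_left _ (mem_insert_self _ _))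
      rwa [Nat.add_zero] at this
    · refine hp h (mem_union_right _ (mem_image.mpr ⟨0, mem_insert_self _ _, ?_⟩))
      exact Nat.zero_add h
  · rintro ⟨hp1, hp2⟩ e he
    rcases mem_union.mp he with he | he
    · rcases mem_insert.mp he with he | he
      · rw [he, Nat.add_zero]
        exact hp1
      · simp at he
    · obtain ⟨d, hd, rfl⟩ := mem_image.mp he
      rcases mem_insert.mp hd with hd | hd
      · rw [hd, Nat.zero_add]
        exact hp2
      · simp at hd

theorem NS_le (m q x a h : ℕ) (R : ℝ) :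
    NS m q R a h x ≤ (((Icc 1 x).filter (fun p => T h p)).card : ℝ) := by
  unfold NS
  refine Nat.cast_le.mpr (card_le_card fun n hn => ?_)
  rw [mem_filter] at hn ⊢
  exact ⟨hn.1, hn.2.1⟩

theorem SS_zero (m q x L a h : ℕ) (hq : ¬ q ∣ h) : SS m q x L a h = 0 := by
  unfold SS
  refine sum_eq_zero fun D _ => sum_eq_zero fun n _ => ?_
  rcases ff_cases q a D n with ⟨h1, -⟩ | ⟨-, h1⟩
  · rcases ff_cases q a D (n + h) with ⟨h2, -⟩ | ⟨-, h2⟩
    · exfalso
      refine hq ?_
      have e1 := (h1 0 (mem_insert_self _ _)).2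
      have e2 := (h2 0 (mem_insert_self _ _)).2
      rw [Nat.add_zero] at e1 e2
      have e3 : n + h ≡ n [MOD q] := e2.trans e1.symm
      have e4 : n + h ≡ n + 0 [MOD q] := by rwa [Nat.add_zero]
      exact (Nat.modEq_zero_iff_dvd).mp (Nat.ModEq.add_left_cancel' n e4)
    · rw [h2, mul_zero]
  · rw [h1, zero_mul]

theorem t : StmtGU := by
  intro m q x L a h R
  refine ⟨SS_le m q x L a h, fun hh => ⟨UU_zero x L h hh, ?_⟩, SS_zero m q x L a h,
    SS_nonneg m q x L a h, UU_nonneg m x L h, MM_nonneg m q x L a⟩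
  rw [UU_zero x L h hh]
  exact NS_le m q x a h R

end Pool.Agent.Helper90.PS.GU
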